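import Pool.Agent.Helper79.ZC.All

set_option autoImplicit false

/-!
MP_b87613_al: the densities of the zeros of type I and of type II of the character tables of
the symmetric groups are asymptotic to `2 / log n`; in particular both limits exist and are `0`.
The definitions `row`, `hook`, `IsCore`, `zI`, `zII` are in `Pool/Agent/Helper79/ZC/Defs.lean`.
-/

namespace Pool.Agent.Results.MP_b87613_al.TypeOneTwoZeros

open Pool.Agent.Helper79.ZC Filter Topology

theorem result :
    Tendsto (fun n : ℕ => zI n * Real.log n) atTop (𝓝 2) ∧
    Tendsto (fun n : ℕ => zII n * Real.log n) atTop (𝓝 2) ∧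
    Tendsto zI atTop (𝓝 0) ∧ Tendsto zII atTop (𝓝 0) :=
  all_FIN

end Pool.Agent.Results.MP_b87613_al.TypeOneTwoZeros
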